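import Pool.Agent.helper82.SW.SpecW

/-!
# sp: module `WPPB`: law of the pivotal set
-/

namespace Pool.Agent.helper82.SW

open MeasureTheory Filter Topology TopologicalSpace

/-- Events which depend on the configuration of the square are measurable. -/
theorem PPB_meas (n : ℕ) (Q : SpectralPivotal.Config n → Prop) :
    MeasurableSet {b : ℤ × ℤ → Bool | Q (cfg n b)} := by
  have h : {b : ℤ × ℤ → Bool | Q (cfg n b)} =
      ⋃ ω ∈ {ω : SpectralPivotal.Config n | Q ω}, ⋂ x : SpectralPivotal.sites n,
        (fun b : ℤ × ℤ → Bool => b (sh x)) ⁻¹' {k | (if k = true then (1 : ℤˣ) else -1) = ω x} := by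
    ext b
    simp only [Set.mem_setOf_eq, Set.mem_iUnion, Set.mem_iInter, Set.mem_preimage, exists_prop]
    constructor
    · intro hb
      exact ⟨cfg n b, hb, fun x => rfl⟩
    · rintro ⟨ω, hω, hx⟩
      have : cfg n b = ω := funext hx
      rwa [this]
  rw [h]
  refine MeasurableSet.biUnion (Set.to_countable _) fun ω _ => MeasurableSet.iInter fun x => ?_
  exact (measurable_pi_apply _) (Set.toFinite _).measurableSet

theorem PPB (hPVT : PVT_stmt) (hAVG : AVG_stmt) : PPB_stmt := by
  classical
  intro i A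
  have h1 := hAVG.1 (2 ^ i) fun ω =>
    if A ((fun x : SpectralPivotal.sites (2 ^ i) => sh x) ''
      (SpectralPivotal.pivotal (2 ^ i) ω : Set _)) then 1 else 0
  have h2 : TP.PPv i A = ∫ b, (if A ((fun x : SpectralPivotal.sites (2 ^ i) => sh x) ''
      (SpectralPivotal.pivotal (2 ^ i) (cfg (2 ^ i) b) : Set _)) then (1 : ℝ) else 0) ∂DP.P1 := by
    have hm := PPB_meas (2 ^ i) fun ω => A ((fun x : SpectralPivotal.sites (2 ^ i) => sh x) ''
      (SpectralPivotal.pivotal (2 ^ i) ω : Set _))
    have hs : {b | A (TP.PV i b)} = {b : ℤ × ℤ → Bool |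
        A ((fun x : SpectralPivotal.sites (2 ^ i) => sh x) ''
      (SpectralPivotal.pivotal (2 ^ i) (cfg (2 ^ i) b) : Set _))} := by
      ext b
      simp only [Set.mem_setOf_eq, hPVT i b]
    rw [TP.PPv, DP.Pr, hs, ← integral_indicator_one hm]
    refine integral_congr_ae (Filter.Eventually.of_forall fun b => ?_)
    simp only [Set.indicator_apply, Set.mem_setOf_eq, Pi.one_apply]
  rw [h2, h1, Finset.sum_div]
  refine Finset.sum_congr rfl fun ω _ => ?_
  split_ifs <;> simp

end Pool.Agent.helper82.SW
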